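import Pool.Agent.Q26.FO.Baire

/-!
# The rationality of the very general cubic hypersurface and cubics over finite fields
-/

set_option autoImplicit false

namespace Pool.Agent.Results.MP_2619d0_ag.FiniteFieldCriterion

open MvPolynomial Pool.Agent.Q26.FO

/-- the very general smooth cubic of dimension `n` is not rational (the statement made by the
problem for one dimension `n`) -/
def VeryGeneralIrrational (n : ℕ) : Prop :=
  ∃ P : ℕ → MvPolynomial ((Fin (n + 1 + 1)) →₀ ℕ) ℂ,
    (∀ k, ∃ G : MvPolynomial (Fin (n + 1 + 1)) ℂ, G.IsHomogeneous 3 ∧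
        MvPolynomial.eval (fun m => G.coeff m) (P k) ≠ 0) ∧
    ∀ F : MvPolynomial (Fin (n + 1 + 1)) ℂ, F.IsHomogeneous 3 →
      (∀ x : Fin (n + 1 + 1) → ℂ,
          (∀ i, MvPolynomial.eval x (MvPolynomial.pderiv i F) = 0) → x = 0) →
      (∀ k, MvPolynomial.eval (fun m => F.coeff m) (P k) ≠ 0) →
      IsEmpty (FractionRing (MvPolynomial (Fin (n + 1)) ℂ ⧸
          Ideal.span {MvPolynomial.aeval
            (Fin.cases (motive := fun _ => MvPolynomial (Fin (n + 1)) ℂ) 1
              (fun j => MvPolynomial.X j)) F})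
        ≃ₐ[ℂ] FractionRing (MvPolynomial (Fin n) ℂ))

/-- The hypersurface `F = 0` of dimension `n` has a birational parametrization of degree at most
`D`: there are polynomials `g 0, …, g (n + 1)` in the parameters `t_1, …, t_n`, of degree at most `D`
in each of them, with `F (g 0, …, g (n + 1)) = 0` and `g 0 ≠ 0`, and forms `H 0, …, H n` of
degree `D` in `n + 2` variables with `H i (g 0, …, g (n + 1)) = t_i * H 0 (g 0, …, g (n + 1))`
for `1 ≤ i ≤ n` and `H 0 (g 0, …, g (n + 1)) ≠ 0`. -/
def Parametrizable (n D : ℕ) (K : Type) [Field K] (F : MvPolynomial (Fin (n + 2)) K) : Prop :=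
  ∃ (g : Fin (n + 2) → MvPolynomial (Fin n) K) (H : Fin (n + 1) → MvPolynomial (Fin (n + 2)) K),
    (∀ i j, (g i).degreeOf j ≤ D) ∧ (∀ i, (H i).IsHomogeneous D) ∧ g 0 ≠ 0 ∧
    bind₁ g F = 0 ∧ bind₁ g (H 0) ≠ 0 ∧
    ∀ i : Fin n, bind₁ g (H i.succ) = X i * bind₁ g (H 0)

/-- the cubic forms in `n + 2` variables over `K` with a birational parametrization of degree at
most `D` are not Zariski dense in the space of all cubic forms -/
def ParametrizableNotDense (n D : ℕ) (K : Type) [Field K] : Prop :=
  ∃ Ψ : MvPolynomial (Fin (n + 2) →₀ ℕ) K,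
    (∃ G : MvPolynomial (Fin (n + 2)) K, G.IsHomogeneous 3 ∧ eval (fun m => G.coeff m) Ψ ≠ 0) ∧
    ∀ F : MvPolynomial (Fin (n + 2)) K, F.IsHomogeneous 3 → Parametrizable n D K F →
      eval (fun m => F.coeff m) Ψ = 0

/-- all cubic forms in `n + 2` variables outside of a hypersurface with integral coefficients have a
birational parametrization of degree at most `D` -/
def AlmostAllParametrizable (n D : ℕ) : Prop :=
  ∃ Ψ : MvPolynomial (Fin (n + 2) →₀ ℕ) ℤ,
    (∃ G : MvPolynomial (Fin (n + 2)) ℂ, G.IsHomogeneous 3 ∧ aeval (fun m => G.coeff m) Ψ ≠ 0) ∧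
    ∀ (K : Type) [Field K] [IsAlgClosed K] [CharZero K] (F : MvPolynomial (Fin (n + 2)) K),
      F.IsHomogeneous 3 → aeval (fun m => F.coeff m) Ψ ≠ 0 → Parametrizable n D K F

abbrev Q (n D : ℕ) : Pred (Idx (n + 2) 3) := fun K _ c => HasParametrization n D K (form c)

/-- the restriction of a polynomial in the coefficients to cubic forms -/
noncomputable def restrict {R : Type} [CommRing R] {r : ℕ} :
    MvPolynomial (Fin r →₀ ℕ) R →ₐ[R] MvPolynomial (Idx r 3) R :=
  open Classical in
  aeval fun m => if h : m ∈ Finset.finsuppAntidiag (Finset.univ : Finset (Fin r)) 3 then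
    X (⟨m, h⟩ : Idx r 3) else 0

theorem aeval_restrict {R S : Type} [CommRing R] [CommRing S] [Algebra R S] {r : ℕ}
    (P : MvPolynomial (Fin r →₀ ℕ) R) (F : MvPolynomial (Fin r) S) (hF : F.IsHomogeneous 3) :
    aeval (fun m : Idx r 3 => F.coeff m.1) (restrict P) = aeval (fun m => F.coeff m) P := by
  classical
  rw [restrict, ← AlgHom.comp_apply, comp_aeval]
  congr 2
  funext m
  split_ifs with h
  · rw [aeval_X]
  · rw [map_zero]
    rw [mem_idx] at h
    exact (hF.coeff_eq_zero h).symm

theorem aeval_rename' {R S : Type} [CommRing R] [CommRing S] [Algebra R S] {r : ℕ}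
    (P : MvPolynomial (Idx r 3) R) (F : MvPolynomial (Fin r) S) :
    aeval (fun m => F.coeff m) (rename Subtype.val P) =
      aeval (fun m : Idx r 3 => F.coeff m.1) P := by
  rw [aeval_rename]
  rfl

theorem parametrizableNotDense_iff (n D : ℕ) (K : Type) [Field K] [Infinite K] :
    ParametrizableNotDense n D K ↔ NotDense (Q n D) K := by
  constructor
  · rintro ⟨Ψ, ⟨G, hG, hG'⟩, h⟩
    refine ⟨restrict Ψ, fun h0 => hG' ?_, fun c hc => ?_⟩
    · rw [← aeval_eq_eval, ← aeval_restrict Ψ G hG, h0, map_zero]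
    · have h1 := h (form c) (form_isHomogeneous c) hc
      rw [← aeval_eq_eval, ← aeval_restrict Ψ _ (form_isHomogeneous c)] at h1
      rw [← aeval_eq_eval, ← h1]
      congr 2
      funext m
      exact (coeff_form c m).symm
  · rintro ⟨Ψ, hΨ, h⟩
    refine ⟨rename Subtype.val Ψ, ?_, fun F hF hF' => ?_⟩
    · by_contra h1
      push Not at h1
      refine hΨ (MvPolynomial.funext fun c => ?_)
      have h2 := h1 (form c) (form_isHomogeneous c)
      rw [← aeval_eq_eval, aeval_rename'] at h2
      rw [map_zero, ← aeval_eq_eval, ← h2]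
      congr 2
      funext m
      exact (coeff_form c m).symm
    · rw [← aeval_eq_eval, aeval_rename', aeval_eq_eval]
      refine h _ ?_
      change HasParametrization n D K (form _)
      rw [form_coeff F hF]
      exact hF'

theorem almostAll_iff (n D : ℕ) :
    AlmostAllParametrizable n D ↔ ∃ Ψ : MvPolynomial (Idx (n + 2) 3) ℤ, Ψ ≠ 0 ∧
      ∀ (K : Type) [Field K] [IsAlgClosed K] [CharZero K], HoldsOutside (Q n D) Ψ K := by
  constructor
  · rintro ⟨Ψ, ⟨G, hG, hG'⟩, h⟩
    refine ⟨restrict Ψ, fun h0 => hG' ?_, fun K _ _ _ c hc => ?_⟩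
    · rw [← aeval_restrict Ψ G hG, h0, map_zero]
    · refine h K (form c) (form_isHomogeneous c) ?_
      rw [← aeval_restrict Ψ _ (form_isHomogeneous c)]
      intro h1
      refine hc ?_
      rw [← h1]
      congr 2
      funext m
      exact (coeff_form c m).symm
  · rintro ⟨Ψ, hΨ, h⟩
    refine ⟨rename Subtype.val Ψ, ?_, fun K _ _ _ F hF hF' => ?_⟩
    · by_contra h1
      push Not at h1
      refine charZero_map_ne_zero ℂ Ψ hΨ (MvPolynomial.funext fun c => ?_)
      have h2 := h1 (form c) (form_isHomogeneous c)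
      rw [aeval_rename'] at h2
      rw [map_zero, ← aeval_eq_eval_map, ← h2]
      congr 2
      funext m
      exact (coeff_form c m).symm
    · rw [aeval_rename'] at hF'
      have h1 := h K _ hF'
      change HasParametrization n D K (form _) at h1
      rwa [form_coeff F hF] at h1

theorem veryGeneral_iff (n : ℕ) (hn : 1 ≤ n) :
    VeryGeneralIrrational n ↔ ∀ D, NotDense (Q n D) ℂ := by
  constructor
  · rintro ⟨P, hP, h⟩ D
    by_contra hD
    obtain ⟨Ψ, hΨ, h1, -⟩ := ((isFirstOrder_hasParametrization n 3 D).dense_law.out 0 1).1 hD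
    obtain ⟨c, hc, hc'⟩ := exists_avoiding
      (fun k : Option ℕ => k.elim (map (Int.castRingHom ℂ) Ψ) fun k => restrict (P k))
      (fun k => by
        cases k with
        | none => exact charZero_map_ne_zero ℂ Ψ hΨ
        | some k =>
          intro h0
          obtain ⟨G, hG, hG'⟩ := hP k
          refine hG' ?_
          rw [← aeval_eq_eval, ← aeval_restrict (P k) G hG]
          rw [show restrict (P k) = 0 from h0, map_zero])
      (isOpen_isSmooth (n + 2) 2) (exists_isSmooth (n + 2) 1)
    have h2 : HasParametrization n D ℂ (form c) := by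
      refine h1 ℂ c ?_
      rw [aeval_eq_eval_map]
      exact hc' none
    have h3 := h (form c) (form_isHomogeneous c) hc (fun k => by
      have h4 := hc' (some k)
      rw [← aeval_eq_eval, ← aeval_restrict (P k) _ (form_isHomogeneous c)]
      intro h5
      refine h4 ?_
      rw [← aeval_eq_eval, ← h5]
      congr 2
      funext m
      exact (coeff_form c m).symm)
    obtain ⟨e⟩ := h2.isRational (form_isHomogeneous c)
      (irreducible_dehom hn (form_isHomogeneous c) hc)
    exact h3.false e
  · intro h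
    choose Ψ hΨ hΨ' using fun D => (parametrizableNotDense_iff n D ℂ).2 (h D)
    refine ⟨Ψ, hΨ, fun F hF _ hF' => ⟨fun e => ?_⟩⟩
    obtain ⟨D, hD⟩ := IsRational.hasParametrization hF ⟨e⟩
    exact hF' D (hΨ' D F hF hD)

/-- For every dimension `n ≥ 1` the very general complex cubic is irrational if and only if, for
each degree `D`, for infinitely many (equivalently all but finitely many) primes `p` the cubics over
`F̄_p` with a birational parametrization of degree at most `D` are not Zariski dense. -/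
theorem result :
    (∀ n : ℕ, 1 ≤ n → [VeryGeneralIrrational n,
      ∀ D, ParametrizableNotDense n D ℂ,
      ∀ D, {p : Nat.Primes | ParametrizableNotDense n D (Fbar p)}.Infinite,
      ∀ D, {p : Nat.Primes | ¬ ParametrizableNotDense n D
        (Fbar p)}.Finite].TFAE) ∧
    (∀ n : ℕ, 1 ≤ n → [¬ VeryGeneralIrrational n,
      ∃ D, AlmostAllParametrizable n D,
      ∃ D, {p : Nat.Primes | ¬ ParametrizableNotDense n D (Fbar p)}.Infinite,
      ∃ D, {p : Nat.Primes | ParametrizableNotDense n D
        (Fbar p)}.Finite].TFAE) ∧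
    ((∀ n : ℕ, 4 ≤ n → Even n → VeryGeneralIrrational n) ↔
      ∀ n : ℕ, 4 ≤ n → Even n → ∀ D : ℕ,
        {p : Nat.Primes | ParametrizableNotDense n D (Fbar p)}.Infinite) := by
  have hQ : ∀ n D, IsFirstOrder (Q n D) := fun n D => isFirstOrder_hasParametrization n 3 D
  have hp : ∀ (n D : ℕ) (p : Nat.Primes),
      ParametrizableNotDense n D (Fbar p) ↔ NotDense (Q n D) (Fbar p) :=
    fun n D p => parametrizableNotDense_iff n D (Fbar p)
  have h1 : ∀ n : ℕ, 1 ≤ n → [VeryGeneralIrrational n,
      ∀ D, ParametrizableNotDense n D ℂ,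
      ∀ D, {p : Nat.Primes | ParametrizableNotDense n D (Fbar p)}.Infinite,
      ∀ D, {p : Nat.Primes | ¬ ParametrizableNotDense n D
        (Fbar p)}.Finite].TFAE := by
    intro n hn
    simp only [hp, parametrizableNotDense_iff]
    tfae_have 1 ↔ 2 := veryGeneral_iff n hn
    tfae_have 2 ↔ 3 := forall_congr' fun D => (hQ n D).notDense_law.out 0 2
    tfae_have 2 ↔ 4 := forall_congr' fun D => (hQ n D).notDense_law.out 0 3
    tfae_finish
  refine ⟨h1, fun n hn => ?_, ?_⟩
  · rw [veryGeneral_iff n hn, not_forall]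
    simp only [hp, almostAll_iff]
    tfae_have 1 → 2 := by
      rintro ⟨D, hD⟩
      obtain ⟨Ψ, hΨ, h2, -⟩ := ((hQ n D).dense_law.out 0 1).1 hD
      exact ⟨D, Ψ, hΨ, h2⟩
    tfae_have 2 → 1 := by
      rintro ⟨D, Ψ, hΨ, h2⟩
      exact ⟨D, (h2 ℂ).dense (charZero_map_ne_zero ℂ Ψ hΨ)⟩
    tfae_have 1 ↔ 3 := exists_congr fun D => (hQ n D).dense_law.out 0 2
    tfae_have 1 ↔ 4 := exists_congr fun D => (hQ n D).dense_law.out 0 3
    tfae_finish
  · refine forall_congr' fun n => forall_congr' fun hn => forall_congr' fun _ => ?_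
    exact (h1 n (by omega)).out 0 2

end Pool.Agent.Results.MP_2619d0_ag.FiniteFieldCriterion
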