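import Mathlib
import Pool.Agent.Y201.LI.Free
import Pool.Agent.Y201.LI.Thm3
import Pool.Agent.Y246.C3.Cb
import Pool.Agent.Q35.CF.Conic
import Pool.Agent.Q204.CF.An
import Pool.Agent.Q251.CF.Avoid
import Pool.Agent.Q251.CF.Arc

/-!
# No smooth cubic fourfold is parametrized by polynomials of degree at most three

Let `F` be a cubic form in six variables over the complex numbers whose partial derivatives have no
common zero besides the origin. Then no rational map given by polynomials of degree at most three
from an affine (or projective) space of any dimension to the cubic fourfold `F = 0` is dominant: no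
smooth cubic fourfold is rational or unirational through polynomials of degree at most three. Degree
four is possible for some smooth cubic fourfolds (classical, for two disjoint planes; not proved
here).

Idea of the proof. A general restriction to four parameters is birational, by the bound of the
starting project `TH314.PD`. A line on the fourfold through a very general point can be chosen so
that it avoids all the planes in the fourfold: the planes are rigid, hence countable in number, and
for each of them the net of conics cut out by the polar quadrics has a discriminant which is not a
multiple of `F` (`Q251.CF`). The preimage of this line runs into a base point `b` of the map, and the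
lines through `b` give either a family of lines of odd degree on the fourfold, which does not exist
(`Y201.LI`), or a third point of intersection map of odd degree on the conic bundle of a line; the
conics are anisotropic over the field of rational functions of the base (`Q204.CF`, `Q35.CF`).
-/

set_option autoImplicit false

namespace Pool.Agent.Results.MP_2619d0_ag.NoCubicParametrization

open MvPolynomial

/-- The tuple `G` of polynomials in `N` variables gives a dominant rational map to the
hypersurface `F = 0`: `F` vanishes at `G`, and every form vanishing at `G` is divisible by `F`. -/
def Dominant {m N : ℕ} (F : MvPolynomial (Fin m) ℂ) (G : Fin m → MvPolynomial (Fin N) ℂ) : Prop :=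
  aeval G F = 0 ∧ ∀ (e : ℕ) (H : MvPolynomial (Fin m) ℂ), H.IsHomogeneous e →
    aeval G H = 0 → F ∣ H

/-- **Smooth cubic fourfolds have no parametrization by polynomials of degree at most three.** Let
`F` be a cubic form in six variables whose partial derivatives have no common zero besides the
origin. Then for every `N` no six polynomials of degree at most three in `N` variables give a
dominant rational map to the cubic fourfold `F = 0`. -/
theorem result (F : MvPolynomial (Fin 6) ℂ) (hF : F.IsHomogeneous 3)
    (hsmooth : ∀ z : Fin 6 → ℂ, (∀ i, eval z (pderiv i F) = 0) → z = 0)
    (N : ℕ) (G : Fin 6 → MvPolynomial (Fin N) ℂ) (hG : ∀ i, (G i).totalDegree ≤ 3) :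
    ¬ Dominant F G := by
  intro hdom
  obtain ⟨T, hT, hTF⟩ := Pool.Agent.Y201.C3.exists_tri F hF
  have hfr : F = Pool.Agent.Y201.C3.frm T := hTF
  have hsm : ∀ z : Fin 6 → ℂ, (∀ i, eval z (pderiv i (Pool.Agent.Y201.C3.frm T)) = 0) → z = 0 := by
    rw [← hfr]
    exact hsmooth
  have hS : Pool.Agent.Y201.C3.SmoothT T := by
    intro z hz
    apply hsm
    intro i
    have h := Pool.Agent.Y201.C3.pderiv_frmG hT i z
    rw [aeval_eq_eval] at h
    have h2 := hz i
    rw [Pool.Agent.Y201.C3.smooth_iff] at h2
    refine h.trans ?_
    have h3 : Pool.Agent.Y201.C3.Bg T (fun a => if a = i then (1 : ℂ) else 0) z z = 0 := h2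
    rw [h3, mul_zero]
  refine Pool.Agent.Y201.LI.no_cubic (Pool.Agent.Y246.C3.cb Pool.Agent.Q35.CF.conic)
    (Pool.Agent.Q251.CF.ani2 Pool.Agent.Q204.CF.an) Pool.Agent.Q251.CF.avoid
    Pool.Agent.Q251.CF.arc Pool.Agent.Q251.CF.inv Pool.Agent.Y201.LI.hT1 hT hS hsm N G hG ?_
  rw [← hfr]
  exact hdom

end Pool.Agent.Results.MP_2619d0_ag.NoCubicParametrization
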