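import Mathlib
import Pool.Agent.Q35.UL.Main
import Pool.Agent.Q285.UL.Main

/-! # Parametrizations of odd degree of smooth cubic hypersurfaces by cubic polynomials -/

set_option autoImplicit false

namespace Pool.Agent.Results.MP_2619d0_ag.OddCubicParametrization

open MvPolynomial

/-- `F` is the equation of a smooth cubic hypersurface of dimension `n`: a cubic form in `n + 2`
variables whose partial derivatives have no common zero besides the origin -/
def SmoothCubic {n : ℕ} (F : MvPolynomial (Fin (n + 2)) ℂ) : Prop :=
  F.IsHomogeneous 3 ∧ ∀ z : Fin (n + 2) → ℂ, (∀ i, eval z (pderiv i F) = 0) → z = 0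

/-- the polynomials `g i` in `n` parameters give a dominant rational map from the affine space of
dimension `n` to the hypersurface `F = 0` -/
def Dominant {n : ℕ} (F : MvPolynomial (Fin (n + 2)) ℂ)
    (g : Fin (n + 2) → MvPolynomial (Fin n) ℂ) : Prop :=
  aeval g F = 0 ∧
  ∀ (e : ℕ) (H : MvPolynomial (Fin (n + 2)) ℂ), H.IsHomogeneous e → aeval g H = 0 → F ∣ H

/-- the degree of the rational map given by the polynomials `g i`: the degree of the field of
rational functions of the parameters over the subfield generated by the ratios of the `g i` (if the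
map is dominant, this subfield is the function field of the hypersurface) -/
noncomputable def degree {n : ℕ} (g : Fin (n + 2) → MvPolynomial (Fin n) ℂ) : ℕ :=
  Module.finrank (IntermediateField.adjoin ℂ
    {z : FractionRing (MvPolynomial (Fin n) ℂ) | ∃ i j, z =
      algebraMap (MvPolynomial (Fin n) ℂ) (FractionRing (MvPolynomial (Fin n) ℂ)) (g i) /
      algebraMap (MvPolynomial (Fin n) ℂ) (FractionRing (MvPolynomial (Fin n) ℂ)) (g j)})
    (FractionRing (MvPolynomial (Fin n) ℂ))

/-- the hypersurface contains the linear space spanned by the vectors `e a` -/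
def Contains {n k : ℕ} (F : MvPolynomial (Fin (n + 2)) ℂ) (e : Fin k → Fin (n + 2) → ℂ) : Prop :=
  LinearIndependent ℂ e ∧ ∀ c : Fin k → ℂ, eval (fun i => ∑ a, c a * e a i) F = 0

/-- the quadric bundle of the linear space spanned by the `e a` (the quadrics residual to it in its
intersections with the linear spaces of one dimension more) has a rational section: there are
polynomials `r ≠ 0` and `c a` in the coordinates of a general point `X` of the space such that the
point `r X + ∑ c a e a` lies on the hypersurface -/
def HasSection {n k : ℕ} (F : MvPolynomial (Fin (n + 2)) ℂ) (e : Fin k → Fin (n + 2) → ℂ) : Prop :=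
  ∃ (r : MvPolynomial (Fin (n + 2)) ℂ) (c : Fin k → MvPolynomial (Fin (n + 2)) ℂ), r ≠ 0 ∧
    aeval (fun i => r * X i + ∑ a, c a * C (e a i)) F = 0

/-- Let `X` be a smooth cubic hypersurface of dimension `n ≥ 2`. If there is a dominant rational map
of odd degree to `X` from the space of dimension `n`, given by polynomials of total degree at most
three, then `X` contains a linear space of positive dimension whose quadric bundle has a rational
section, and `X` is rational: there is a dominant rational map of degree one. -/
theorem result (n : ℕ) (hn : 2 ≤ n) (F : MvPolynomial (Fin (n + 2)) ℂ) (hF : SmoothCubic F)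
    (g : Fin (n + 2) → MvPolynomial (Fin n) ℂ) (hg : ∀ i, (g i).totalDegree ≤ 3)
    (hdom : Dominant F g) (hodd : Odd (degree g)) :
    (∃ (k : ℕ) (e : Fin k → Fin (n + 2) → ℂ), 2 ≤ k ∧ Contains F e ∧ HasSection F e) ∧
    ∃ h : Fin (n + 2) → MvPolynomial (Fin n) ℂ, Dominant F h ∧ degree h = 1 := by
  obtain ⟨k, e, hel, he, hsec, hk⟩ := Pool.Agent.Q35.UL.odd_cubic hn hF.1 hF.2 g hg hdom.1 hdom.2
    hodd
  refine ⟨⟨k, e, hk, ⟨hel, he⟩, hsec⟩, ?_⟩
  obtain ⟨h, h1, h2, h3⟩ :=
    Pool.Agent.Q285.UL.rat n k F (by omega) hF.1 hF.2 e hel he hsec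
  exact ⟨h, ⟨h1, h2⟩, h3⟩

end Pool.Agent.Results.MP_2619d0_ag.OddCubicParametrization
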