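import Mathlib
import Pool.Agent.Q35.PL.Cub

/-! # Every smooth cubic hypersurface: families of tangent lines have even degree, and a parity law
for families of secant lines -/

set_option autoImplicit false

namespace Pool.Agent.Results.MP_2619d0_ag.TangentLines

open MvPolynomial

/-- `F` is the equation of a smooth cubic hypersurface of dimension `n`: a cubic form in `n + 2`
variables whose partial derivatives have no common zero besides the origin -/
def SmoothCubic {n : ℕ} (F : MvPolynomial (Fin (n + 2)) ℂ) : Prop :=
  F.IsHomogeneous 3 ∧ ∀ z : Fin (n + 2) → ℂ, (∀ i, eval z (pderiv i F) = 0) → z = 0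

/-- the field generated over `ℂ` by the ratios of the coordinates of `x` -/
noncomputable def ratios {n : ℕ} {M : Type} [Field M] [Algebra ℂ M] (x : Fin (n + 2) → M) :
    IntermediateField ℂ M :=
  IntermediateField.adjoin ℂ {z : M | ∃ i j, z = x i / x j}

/-- `x` is a generic point of the hypersurface `X` given by `F = 0`, with coordinates in `M` (then
`ratios x` is the function field of `X`) -/
def Generic {n : ℕ} (F : MvPolynomial (Fin (n + 2)) ℂ) {M : Type} [Field M] [Algebra ℂ M]
    (x : Fin (n + 2) → M) : Prop :=
  aeval x F = 0 ∧
  ∀ (e : ℕ) (H : MvPolynomial (Fin (n + 2)) ℂ), H.IsHomogeneous e → aeval x H = 0 → F ∣ H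

/-- `x` is a generic point, and `M` has finite odd degree over the function field of `X` -/
def OddPoint {n : ℕ} (F : MvPolynomial (Fin (n + 2)) ℂ) {M : Type} [Field M] [Algebra ℂ M]
    (x : Fin (n + 2) → M) : Prop :=
  Generic F x ∧ Odd (Module.finrank (ratios x) M)

open Classical in
/-- the degree of a point `z` with coordinates in `M`: the degree of `M` over `ratios z` if `z` is a
generic point of `X`, and zero if `z` is not generic -/
noncomputable def degree {n : ℕ} (F : MvPolynomial (Fin (n + 2)) ℂ) {M : Type} [Field M]
    [Algebra ℂ M] (z : Fin (n + 2) → M) : ℕ :=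
  if Generic F z then Module.finrank (ratios z) M else 0

/-- the restriction `F(x + s z)` of the equation to the line through `x` and `z`, a polynomial in
the parameter `s` -/
noncomputable def restriction {n : ℕ} (F : MvPolynomial (Fin (n + 2)) ℂ) {M : Type} [Field M]
    [Algebra ℂ M] (x z : Fin (n + 2) → M) : Polynomial M :=
  aeval (fun j => Polynomial.C (x j) + Polynomial.X * Polynomial.C (z j)) F

/-- the degree of the family of lines: the degree of the field `M(s)` over its subfield generated
by the ratios of the coordinates of the general point `x + s z` of the line, that is, the number of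
lines of the family through a general point of the space -/
noncomputable def lineDegree {n : ℕ} {M : Type} [Field M] [Algebra ℂ M]
    (x z : Fin (n + 2) → M) : ℕ :=
  Module.finrank (ratios fun j => algebraMap (Polynomial M) (FractionRing (Polynomial M))
    (Polynomial.C (x j) + Polynomial.X * Polynomial.C (z j))) (FractionRing (Polynomial M))

/-- over every field of odd degree over the function field, the hypersurface is tangent to the line
joining the generic point `x` with `z` at no rational point `z ≠ x` of `X`: `x` is not in the
tangent hyperplane at `z` -/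
def NoTangentLine {n : ℕ} (F : MvPolynomial (Fin (n + 2)) ℂ) : Prop :=
  ∀ (M : Type) [Field M] [Algebra ℂ M] (x : Fin (n + 2) → M), OddPoint F x →
    ∀ z : Fin (n + 2) → M, aeval z F = 0 → LinearIndependent M ![x, z] →
      ∑ i, x i * aeval z (pderiv i F) ≠ 0

/-- if the line through the generic point `x` and `z` meets `X` in the three points `x`, `z` and
`x + σ z`, then the degree of the family of lines is congruent to the sum of the degrees of the
three points modulo two -/
def ParityLaw {n : ℕ} (F : MvPolynomial (Fin (n + 2)) ℂ) : Prop :=
  ∀ (M : Type) [Field M] [Algebra ℂ M] (x : Fin (n + 2) → M), Generic F x →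
    FiniteDimensional (ratios x) M →
    ∀ z : Fin (n + 2) → M, LinearIndependent M ![x, z] → ∀ c σ : M, c ≠ 0 →
      restriction F x z = Polynomial.C c * (Polynomial.X * (Polynomial.X - Polynomial.C σ)) →
      lineDegree x z ≡ degree F x + degree F (fun j => x j + σ * z j) + degree F z [MOD 2]

/-- if in this situation `M` has odd degree over the function field and the polar quadrics of `x`
and `z` have a common zero `u` over `M`, then the sum of the degrees of the two other points `z` and
`x + σ z` is odd; so one of them is a generic point -/
def CommonPolarZero {n : ℕ} (F : MvPolynomial (Fin (n + 2)) ℂ) : Prop :=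
  ∀ (M : Type) [Field M] [Algebra ℂ M] (x : Fin (n + 2) → M), OddPoint F x →
    ∀ z : Fin (n + 2) → M, LinearIndependent M ![x, z] → ∀ c σ : M, c ≠ 0 →
      restriction F x z = Polynomial.C c * (Polynomial.X * (Polynomial.X - Polynomial.C σ)) →
      ∀ u : Fin (n + 2) → M, u ≠ 0 → ∑ i, x i * aeval u (pderiv i F) = 0 →
        ∑ i, z i * aeval u (pderiv i F) = 0 →
        Odd (degree F (fun j => x j + σ * z j) + degree F z)

lemma lineDegree_eq {n : ℕ} {M : Type} [Field M] [Algebra ℂ M] (x z : Fin (n + 2) → M) :
    lineDegree x z = Module.finrank (Pool.Agent.TH314.PD.ratioField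
      (Pool.Agent.Q35.PL.pt x z (Pool.Agent.Q35.PL.ss M))) (Pool.Agent.Q35.PL.RF' M) := by
  have h : (fun j => algebraMap (Polynomial M) (FractionRing (Polynomial M))
      (Polynomial.C (x j) + Polynomial.X * Polynomial.C (z j))) =
      Pool.Agent.Q35.PL.pt x z (Pool.Agent.Q35.PL.ss M) := by
    funext j
    rw [map_add, map_mul]
    rfl
  unfold lineDegree
  rw [h]
  rfl

lemma degree_eq {n : ℕ} (F : MvPolynomial (Fin (n + 2)) ℂ) {M : Type} [Field M] [Algebra ℂ M]
    (z : Fin (n + 2) → M) : degree F z = Pool.Agent.Q35.PL.dg F z := rfl

/-- Let `X` be ANY smooth cubic hypersurface of any dimension. Over an extension `M` of odd degree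
of the function field no line through the generic point is tangent to `X` at another `M`-rational
point; so every parametrization of `X` by the residual points of a family of tangent lines has even
or infinite degree. The families of lines which meet `X` in three rational points satisfy a parity
law. -/
theorem result :
    ∀ (n : ℕ) (F : MvPolynomial (Fin (n + 2)) ℂ), SmoothCubic F →
      NoTangentLine F ∧ ParityLaw F ∧ CommonPolarZero F := by
  rintro n F ⟨hF, hsm⟩
  have hlaw : ParityLaw F := by
    intro M _ _ x hx hfd z hl c σ hc h
    rw [lineDegree_eq, degree_eq, degree_eq, degree_eq]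
    exact Pool.Agent.Q35.PL.cubic_law hF hsm hx hfd hl hc h
  refine ⟨?_, hlaw, ?_⟩
  · rintro M _ _ x ⟨hx, hodd⟩ z hz hl hcon
    have h0 : (Pool.Agent.Q35.PL.bin F x z).coeff 0 = 0 := by
      rw [Pool.Agent.Q35.PL.coeff_bin]
      exact hx.1
    have h2 : (Pool.Agent.Q35.PL.bin F x z).coeff 2 = 0 := by
      have := Pool.Agent.Q35.PL.bin_sub hF (by norm_num) x z
      rw [show 3 - 1 = 2 from rfl] at this
      rw [this]
      exact hcon
    obtain ⟨hdeg, h3⟩ := Pool.Agent.Q35.PL.bin_top hF x z
    rw [hz] at h3
    have hbin : Pool.Agent.Q35.PL.bin F x z =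
        Polynomial.C ((Pool.Agent.Q35.PL.bin F x z).coeff 1) * Polynomial.X := by
      ext k
      rw [Polynomial.coeff_C_mul, Polynomial.coeff_X]
      rcases k with _ | _ | _ | _ | k
      · simpa using h0
      · simp
      · simpa using h2
      · simpa using h3
      · rw [if_neg (by omega), mul_zero]
        exact Polynomial.coeff_eq_zero_of_natDegree_lt (by omega)
    have hdvd : 3 - 1 ∣ Module.finrank (ratios x) M :=
      Pool.Agent.Q35.PL.contact_other hF le_rfl hsm hx hl _ hbin
    rcases hodd with ⟨a, ha⟩
    omega
  · rintro M _ _ x ⟨hx, hodd⟩ z hl c σ hc h u hu h1 h2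
    have hfd : FiniteDimensional (ratios x) M := .of_finrank_pos hodd.pos
    have h3 := hlaw M x hx hfd z hl c σ hc h
    have hb : Pool.Agent.Q35.PL.bin F x z ≠ 0 := by
      intro h0
      have h4 : Polynomial.C c * (Polynomial.X * (Polynomial.X - Polynomial.C σ)) = 0 := by
        rw [← h]
        exact h0
      rw [mul_eq_zero, mul_eq_zero] at h4
      rcases h4 with h4 | h4 | h4
      · exact hc (Polynomial.C_eq_zero.1 h4)
      · exact Polynomial.X_ne_zero h4
      · exact Polynomial.X_sub_C_ne_zero _ h4
    have h4 : 3 - 1 ∣ lineDegree x z := by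
      rw [lineDegree_eq]
      exact Pool.Agent.Q35.PL.even_of_common hF (by norm_num) hsm hx hfd hb
        Pool.Agent.Q35.PL.ss_trans Pool.Agent.Q35.PL.ss_top hu h1 h2
    have h5 : degree F x = Module.finrank (ratios x) M := by
      unfold degree
      rw [if_pos hx]
    rw [h5] at h3
    rcases hodd with ⟨a, ha⟩
    unfold Nat.ModEq at h3
    rw [Nat.odd_iff]
    omega

end Pool.Agent.Results.MP_2619d0_ag.TangentLines
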